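import Pool.Agent.Y2.Cnt

/-!
Distributions on `ℤ / m` with prescribed values; translation by a unit.
-/

set_option autoImplicit false

namespace Pool.Agent.J4.H17.KB

open Finset Pool.Agent.H916R2 Pool.Agent.Y2

lemma sum_range_grid (a b : ℕ) (f : ℕ → ℤ) :
    ∑ k ∈ range (a * b), f k = ∑ j ∈ range b, ∑ i ∈ range a, f (i + a * j) := by
  induction b with
  | zero => simp
  | succ b ih =>
    rw [Nat.mul_succ, Finset.sum_range_add, ih, sum_range_succ]
    congr 1
    refine sum_congr rfl fun i _ => ?_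
    congr 1; ring

/-- Integral distributions on `ℤ / m` with prescribed values on the generating set. -/
theorem exists_dist {m : ℕ} (hm : m ≠ 0) (w : ℕ → ℤ) : ∃ c : ℕ → ℤ,
    (∀ x y, x ≡ y [MOD m] → c x = c y) ∧
    (∀ r, r.Prime → r ∣ m → ∀ n, ∑ i ∈ range r, c (n + i * (m / r)) = c (r * n)) ∧
    ∀ x, (∀ r ∈ m.primeFactors, TT r m x) → c x = w (x % m) := by
  obtain ⟨q, hqm', hq⟩ := Nat.exists_infinite_primes (m + 1)
  have hqm : ¬ q ∣ m := fun h => by
    have := Nat.le_of_dvd (Nat.pos_of_ne_zero hm) h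
    omega
  set M := q * m with hM
  have hM0 : M ≠ 0 := Nat.mul_ne_zero hq.ne_zero hm
  have hfac : ∀ r, r ≠ q → M.factorization r = m.factorization r := by
    intro r hr
    rw [hM, Nat.factorization_mul hq.ne_zero hm, Finsupp.add_apply, hq.factorization,
      Finsupp.single_eq_of_ne hr, zero_add]
  have hPO : PO q M = m.primeFactors := by
    ext r
    rw [PO, Finset.mem_erase, hM, Nat.primeFactors_mul hq.ne_zero hm, Finset.mem_union,
      hq.primeFactors, Finset.mem_singleton]
    constructor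
    · rintro ⟨h1, h2 | h2⟩
      · exact absurd h2 h1
      · exact h2
    · intro h
      refine ⟨?_, Or.inr h⟩
      rintro rfl
      exact hqm (Nat.dvd_of_mem_primeFactors h)
  have hTT : ∀ r ∈ m.primeFactors, ∀ x, TT r M x ↔ TT r m x := by
    intro r hr x
    have hrq : r ≠ q := by rintro rfl; exact hqm (Nat.dvd_of_mem_primeFactors hr)
    unfold TT
    rw [hfac r hrq]
  obtain ⟨C, hC, hv⟩ := exists_td hq (Dvd.intro m rfl : q ∣ M) hM0
    (fun x => if x % q = 1 then w (x % m) else 0)
  rw [hPO] at hC hv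
  refine ⟨fun n => ∑ j ∈ range q, C (n + j * m), ?_, ?_, ?_⟩
  · have h1 : ∀ x j, ∑ i ∈ range q, C (x + j * m + i * m) = ∑ i ∈ range q, C (x + i * m) :=
      fun x j => coset_shift_mul hq.pos hM.symm hC.per x j
    have h2 : ∀ x, ∑ i ∈ range q, C (x + i * m) = ∑ i ∈ range q, C (x % m + i * m) := by
      intro x
      rw [← h1 (x % m) (x / m)]
      refine sum_congr rfl fun i _ => ?_
      congr 2
      rw [mul_comm, Nat.mod_add_div]
    intro x y hxy
    show ∑ i ∈ range q, C (x + i * m) = ∑ i ∈ range q, C (y + i * m)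
    rw [h2 x, h2 y, hxy]
  · intro r hr hrm n
    obtain ⟨d, hd⟩ := hrm
    have hdr : m / r = d := by rw [hd, Nat.mul_div_cancel_left _ hr.pos]
    have hMr : M / r = q * d := by
      rw [hM, hd, show q * (r * d) = r * (q * d) by ring, Nat.mul_div_cancel_left _ hr.pos]
    rw [hdr]
    show ∑ i ∈ range r, ∑ j ∈ range q, C (n + i * d + j * m) = ∑ j ∈ range q, C (r * n + j * m)
    have e1 : ∑ i ∈ range r, ∑ j ∈ range q, C (n + i * d + j * m) =
        ∑ k ∈ range (r * q), C (n + k * d) := by
      rw [sum_comm, sum_range_grid r q]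
      refine sum_congr rfl fun j _ => sum_congr rfl fun i _ => ?_
      congr 1
      rw [hd]; ring
    have e2 : ∑ k ∈ range (r * q), C (n + k * d) =
        ∑ l ∈ range q, ∑ i ∈ range r, C (n + l * d + i * (M / r)) := by
      rw [mul_comm r q, sum_range_grid q r, sum_comm]
      refine sum_congr rfl fun j _ => sum_congr rfl fun i _ => ?_
      congr 1
      rw [hMr]; ring
    rw [e1, e2]
    refine sum_congr rfl fun l _ => ?_
    rw [hC.dist r (Nat.mem_primeFactors.mpr ⟨hr, Dvd.intro _ hd.symm, hm⟩)]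
    congr 1
    rw [hd]; ring
  · intro x hx
    have h1 : ∀ j, C (x + j * m) = if (x + j * m) % q = 1 then w (x % m) else 0 := by
      intro j
      by_cases hqd : q ∣ x + j * m
      · rw [hC.supp (Dvd.intro m rfl) _ hqd, if_neg]
        rw [Nat.mod_eq_zero_of_dvd hqd]
        omega
      · rw [hv (x + j * m) hqd]
        · rw [Nat.mod_mod_of_dvd _ (Dvd.intro m rfl : q ∣ M),
            Nat.mod_mod_of_dvd _ (Dvd.intro_left q rfl : m ∣ M), Nat.add_mul_mod_self_right]
        · intro r hr
          rw [hTT r hr, ← TT_mod, Nat.add_mul_mod_self_right, TT_mod]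
          exact hx r hr
    show ∑ j ∈ range q, C (x + j * m) = w (x % m)
    rw [sum_congr rfl fun j _ => h1 j]
    set G : ℕ → ℤ := fun n => if n % q = 1 then w (x % m) else 0 with hG
    have hper : ∀ a b, a ≡ b [MOD q] → G a = G b := by
      intro a b hab
      simp only [hG]
      rw [hab]
    have hcop : Nat.Coprime m q := by
      rw [Nat.coprime_comm]
      exact (Nat.Prime.coprime_iff_not_dvd hq).mpr hqm
    have e1 := coset_mul (Q := ℤ) hq.pos (mul_one q) hper (n := m) hcop x
    have e2 := coset_shift_mul (Q := ℤ) hq.pos (mul_one q) hper 0 x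
    have e3 : ∑ j ∈ range q, (if (x + j * m) % q = 1 then w (x % m) else 0) =
        ∑ i ∈ range q, G (x + m * i * 1) := by
      refine sum_congr rfl fun j _ => ?_
      simp only [hG]
      rw [mul_one, mul_comm m j]
    rw [e3, e1]
    have e4 : ∑ i ∈ range q, G (x + i * 1) = ∑ i ∈ range q, G (0 + x * 1 + i * 1) := by
      refine sum_congr rfl fun j _ => ?_
      rw [zero_add, mul_one, mul_one]
    rw [e4, e2]
    have e5 : ∀ i ∈ range q, G (0 + i * 1) = if i = 1 then w (x % m) else 0 := by
      intro i hi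
      simp only [hG]
      rw [zero_add, mul_one, Nat.mod_eq_of_lt (mem_range.mp hi)]
    rw [sum_congr rfl e5, Finset.sum_ite_eq', if_pos (mem_range.mpr hq.one_lt)]

/-- the same for a translate of the generating set -/
theorem exists_dist_unit {m : ℕ} [NeZero m] (X : Finset (ZMod m)) (t : (ZMod m)ˣ)
    (hX : ∀ x ∈ X, ∀ r ∈ m.primeFactors, TT r m ((t : ZMod m) * x).val) (w : ZMod m → ℤ) :
    ∃ c : ZMod m → ℤ, (∀ q d : ℕ, q.Prime → q * d = m → ∀ a,
      ∑ i ∈ range q, c (a + (i : ZMod m) * (d : ZMod m)) = c ((q : ZMod m) * a)) ∧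
      ∀ x ∈ X, c x = w x := by
  have hm : m ≠ 0 := NeZero.ne m
  obtain ⟨C, hper, hdist, hval⟩ := exists_dist hm
    (fun n => w ((t⁻¹ : (ZMod m)ˣ) * (n : ZMod m)))
  have hC : ∀ a : ℕ, C ((a : ZMod m).val) = C a := by
    intro a
    apply hper
    rw [ZMod.val_natCast]
    exact Nat.mod_modEq a m
  refine ⟨fun a => C ((t : ZMod m) * a).val, ?_, ?_⟩
  · intro q d hq hqd a
    show ∑ i ∈ range q, C ((t : ZMod m) * (a + (i : ZMod m) * (d : ZMod m))).val =
      C ((t : ZMod m) * ((q : ZMod m) * a)).val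
    have hdq : m / q = d := by rw [← hqd, Nat.mul_div_cancel_left _ hq.pos]
    have hcop : Nat.Coprime (t : ZMod m).val q := by
      have h1 : Nat.Coprime (t : ZMod m).val m := ZMod.val_coe_unit_coprime t
      exact Nat.Coprime.coprime_dvd_right (Dvd.intro d hqd) h1
    have h1 : ∀ i ∈ range q, C ((t : ZMod m) * (a + (i : ZMod m) * (d : ZMod m))).val =
        C ((t : ZMod m).val * a.val + (t : ZMod m).val * i * d) := by
      intro i _
      rw [← hC ((t : ZMod m).val * a.val + (t : ZMod m).val * i * d)]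
      congr 2
      push_cast
      rw [ZMod.natCast_zmod_val, ZMod.natCast_zmod_val]
      ring
    rw [sum_congr rfl h1, coset_mul hq.pos hqd hper hcop]
    have h2 := hdist q hq (Dvd.intro d hqd) ((t : ZMod m).val * a.val)
    rw [hdq] at h2
    rw [h2, ← hC (q * ((t : ZMod m).val * a.val))]
    congr 2
    push_cast
    rw [ZMod.natCast_zmod_val, ZMod.natCast_zmod_val]
    ring
  · intro x hx
    show C ((t : ZMod m) * x).val = w x
    rw [hval _ (hX x hx), Nat.mod_eq_of_lt (ZMod.val_lt _), ZMod.natCast_zmod_val]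
    congr 1
    rw [← mul_assoc, Units.inv_mul, one_mul]

end Pool.Agent.J4.H17.KB
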