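import Pool.Agent.J4.H17.KB.Unit
import Pool.Agent.J4.H26.Et.Odd

/-!
Odd distributions which are invariant under `p`, with prescribed values on few residues.
-/

set_option autoImplicit false
set_option linter.unusedSectionVars false

namespace Pool.Agent.J4.H17.KB

open Finset Pool.Agent.H916R2 Pool.Agent.H916T Pool.Agent.H916Z Pool.Agent.Y2

/-- The residues `± p ^ j` modulo `n`. -/
def signedPowers (p n : ℕ) : Set (ZMod n) :=
  {x | ∃ j : ℕ, x = (p : ZMod n) ^ j ∨ x = -(p : ZMod n) ^ j}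

/-- `K` times the number of residues `± p ^ j` modulo `q ^ e` is less than `q - 1`, for every odd prime
`q` dividing `m`, where `q ^ e` is the exact power of `q` dividing `m`. -/
def FewPowers (p m K : ℕ) : Prop :=
  ∀ q : ℕ, q.Prime → q ≠ 2 → q ∣ m → K * (signedPowers p (q ^ (m.factorization q))).ncard < q - 1

variable {p m : ℕ}

/-- distributions -/
def Dst {m : ℕ} (c : ZMod m → ℤ) : Prop :=
  ∀ q d : ℕ, q.Prime → q * d = m → ∀ a,
    ∑ i ∈ range q, c (a + (i : ZMod m) * (d : ZMod m)) = c ((q : ZMod m) * a)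

lemma Dst.mul [NeZero m] {c : ZMod m → ℤ} (hc : Dst c) (u : (ZMod m)ˣ) :
    Dst (fun a => c ((u : ZMod m) * a)) := by
  intro q d hq hqd a
  have hcop : Nat.Coprime (u : ZMod m).val q :=
    Nat.Coprime.coprime_dvd_right (Dvd.intro d hqd) (ZMod.val_coe_unit_coprime u)
  set G : ℕ → ℤ := fun i => c ((u : ZMod m) * a + (i : ZMod m) * (d : ZMod m)) with hG
  have hper : ∀ i, G (i % q) = G i := by
    intro i
    simp only [hG]
    congr 2
    have h1 : i % q * d ≡ i * d [MOD m] := by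
      rw [← hqd]
      exact Nat.ModEq.mul_right' d (Nat.mod_modEq i q)
    have h2 := (ZMod.natCast_eq_natCast_iff _ _ m).mpr h1
    push_cast at h2
    exact h2
  have h3 := sum_range_mul hq.pos G hper hcop
  have h4 : ∑ i ∈ range q, c ((u : ZMod m) * (a + (i : ZMod m) * (d : ZMod m))) =
      ∑ i ∈ range q, G ((u : ZMod m).val * i) := by
    refine sum_congr rfl fun i _ => ?_
    simp only [hG]
    congr 1
    push_cast
    rw [ZMod.natCast_zmod_val]
    ring
  show ∑ i ∈ range q, c ((u : ZMod m) * (a + (i : ZMod m) * (d : ZMod m))) =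
    c ((u : ZMod m) * ((q : ZMod m) * a))
  rw [h4, h3]
  simp only [hG]
  rw [hc q d hq hqd]
  congr 1; ring

lemma Dst.sub {c c' : ZMod m → ℤ} (hc : Dst c) (hc' : Dst c') : Dst (fun a => c a - c' a) := by
  intro q d hq hqd a
  show ∑ i ∈ range q, (c _ - c' _) = _
  rw [sum_sub_distrib, hc q d hq hqd, hc' q d hq hqd]

lemma Dst.sum {ι : Type} (s : Finset ι) {c : ι → ZMod m → ℤ} (hc : ∀ i ∈ s, Dst (c i)) :
    Dst (fun a => ∑ i ∈ s, c i a) := by
  intro q d hq hqd a
  show ∑ i ∈ range q, ∑ j ∈ s, c j _ = _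
  rw [sum_comm]
  exact sum_congr rfl fun j hj => hc j hj q d hq hqd a

/-- the odd invariant distribution attached to a distribution -/
noncomputable def sym (p : ℕ) (c : ZMod m → ℤ) (a : ZMod m) : ℤ :=
  ∑ j ∈ range (orderOf (p : ZMod m)),
    (c ((p : ZMod m) ^ j * a) - c (-((p : ZMod m) ^ j * a)))

lemma sym_neg (c : ZMod m → ℤ) (a : ZMod m) : sym p c (-a) = - sym p c a := by
  unfold sym
  rw [← sum_neg_distrib]
  refine sum_congr rfl fun j _ => ?_
  rw [mul_neg, neg_neg]; ring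

lemma sym_inv (c : ZMod m → ℤ) (a : ZMod m) : sym p c ((p : ZMod m) * a) = sym p c a := by
  unfold sym
  have h1 : ∀ j ∈ range (orderOf (p : ZMod m)),
      (c ((p : ZMod m) ^ j * ((p : ZMod m) * a)) - c (-((p : ZMod m) ^ j * ((p : ZMod m) * a)))) =
      c ((p : ZMod m) ^ (j + 1) * a) - c (-((p : ZMod m) ^ (j + 1) * a)) := by
    intro j _
    rw [show (p : ZMod m) ^ j * ((p : ZMod m) * a) = (p : ZMod m) ^ (j + 1) * a by
      rw [pow_succ]; ring]
  rw [sum_congr rfl h1]
  have h2 := sum_range_succ (fun j => c ((p : ZMod m) ^ j * a) - c (-((p : ZMod m) ^ j * a)))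
    (orderOf (p : ZMod m))
  have h3 := sum_range_succ' (fun j => c ((p : ZMod m) ^ j * a) - c (-((p : ZMod m) ^ j * a)))
    (orderOf (p : ZMod m))
  rw [h2, H916T.pow_order, pow_zero] at h3
  linarith

lemma sym_dst [NeZero m] (hp : p.Coprime m) {c : ZMod m → ℤ} (hc : Dst c) : Dst (sym p c) := by
  unfold sym
  refine Dst.sum _ fun j _ => Dst.sub ?_ ?_
  · have h1 := hc.mul ((H916T.isUnit_p hp).unit ^ j)
    simpa using h1
  · have h1 := hc.mul (-((H916T.isUnit_p hp).unit ^ j))
    simpa using h1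

lemma sym_iod [NeZero m] (hp : p.Coprime m) {c : ZMod m → ℤ} (hc : Dst c) :
    IOD p (sym p c) := by
  have hd := sym_dst hp hc
  have hz : sym p c 0 = 0 := by
    have h := sym_neg (p := p) c (0 : ZMod m)
    rw [neg_zero] at h
    omega
  have hhalf : ∀ d : ℕ, 2 * d = m → sym p c (d : ZMod m) = 0 := by
    intro d hdm
    have h1 : -(d : ZMod m) = d := by
      rw [neg_eq_iff_add_eq_zero, ← two_mul]
      have : ((2 * d : ℕ) : ZMod m) = 0 := by rw [hdm]; exact ZMod.natCast_self m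
      simpa using this
    have h := sym_neg (p := p) c (d : ZMod m)
    rw [h1] at h
    omega
  refine ⟨⟨sym_neg c, hz, ?_, ?_⟩, sym_inv c⟩
  · intro q d hq _ hqd a
    exact hd q d hq hqd a
  · intro d hdm a
    have h := hd 2 d Nat.prime_two hdm a
    rw [sum_range_succ, sum_range_one] at h
    simp only [Nat.cast_zero, zero_mul, add_zero, Nat.cast_one, one_mul] at h
    rw [hhalf d hdm, add_zero]
    exact_mod_cast h

/-- the residues `± p ^ j z` -/
lemma card_orbit [NeZero m] {r e : ℕ} (hr : r ^ e ∣ m) (hr0 : r ^ e ≠ 0)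
    (Z X : Finset (ZMod m))
    (hX : ∀ x ∈ X, ∃ z ∈ Z, ∃ j : ℕ, x = (p : ZMod m) ^ j * z ∨ x = -((p : ZMod m) ^ j * z)) :
    (X.image (fun x => x.val % r ^ e)).card ≤ Z.card * (signedPowers p (r ^ e)).ncard := by
  classical
  have hz : NeZero (r ^ e) := ⟨hr0⟩
  have hfin : (signedPowers p (r ^ e)).Finite := Set.toFinite _
  rw [Set.ncard_eq_toFinset_card _ hfin, ← card_product]
  set π := ZMod.castHom hr (ZMod (r ^ e)) with hπ
  have hval : ∀ x : ZMod m, x.val % r ^ e = (π x).val := by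
    intro x
    rw [← ZMod.val_natCast, ZMod.natCast_val]
    rfl
  have hsub : X.image (fun x => x.val % r ^ e) ⊆
      (Z ×ˢ hfin.toFinset).image (fun zg => (zg.2 * π zg.1).val) := by
    intro n hn
    obtain ⟨x, hx, rfl⟩ := mem_image.mp hn
    obtain ⟨z, hz, j, hj⟩ := hX x hx
    rw [mem_image]
    rcases hj with hj | hj
    · refine ⟨(z, (p : ZMod (r ^ e)) ^ j), ?_, ?_⟩
      · rw [mem_product]
        exact ⟨hz, hfin.mem_toFinset.mpr ⟨j, Or.inl rfl⟩⟩
      · show ((p : ZMod (r ^ e)) ^ j * π z).val = x.val % r ^ e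
        rw [hval, hj, map_mul, map_pow, map_natCast]
    · refine ⟨(z, -(p : ZMod (r ^ e)) ^ j), ?_, ?_⟩
      · rw [mem_product]
        exact ⟨hz, hfin.mem_toFinset.mpr ⟨j, Or.inr rfl⟩⟩
      · show (-(p : ZMod (r ^ e)) ^ j * π z).val = x.val % r ^ e
        rw [hval, hj, map_neg, map_mul, map_pow, map_natCast, neg_mul]
  exact (card_le_card hsub).trans card_image_le

open scoped Classical in
/-- **Odd distributions, invariant under `p`, with prescribed values.** -/
theorem exists_iod [NeZero m] (hp : p.Coprime m) (Z : Finset (ZMod m)) {K : ℕ} (hZ : Z.card ≤ K)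
    (hL : FewPowers p m K)
    (h2 : 2 ∣ m → ∀ z ∈ Z, 2 ^ (m.factorization 2) ∣ z.val) (w : ZMod m → ℤ)
    (hw : ∀ a, w ((p : ZMod m) * a) = w a) :
    ∃ h : ZMod m → ℤ, IOD p h ∧
      ∀ z ∈ Z, h z = (orderOf (p : ZMod m) : ℤ) * (w z - w (-z)) := by
  set X : Finset (ZMod m) := univ.filter (fun x => ∃ z ∈ Z, ∃ j : ℕ,
    x = (p : ZMod m) ^ j * z ∨ x = -((p : ZMod m) ^ j * z)) with hXdef
  have hX : ∀ x ∈ X, ∃ z ∈ Z, ∃ j : ℕ,
      x = (p : ZMod m) ^ j * z ∨ x = -((p : ZMod m) ^ j * z) := by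
    intro x hx
    simpa [hXdef] using hx
  have hX' : ∀ z ∈ Z, ∀ j : ℕ, (p : ZMod m) ^ j * z ∈ X ∧ -((p : ZMod m) ^ j * z) ∈ X := by
    intro z hz j
    simp only [hXdef, mem_filter, mem_univ, true_and]
    exact ⟨⟨z, hz, j, Or.inl rfl⟩, ⟨z, hz, j, Or.inr rfl⟩⟩
  obtain ⟨t, ht⟩ := exists_unit X (by
    intro r hrm
    have hr := Nat.prime_of_mem_primeFactors hrm
    have hrd := Nat.dvd_of_mem_primeFactors hrm
    have hd : r ^ (m.factorization r) ∣ m := Nat.ordProj_dvd m r
    by_cases hr2 : r = 2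
    · subst hr2
      have h3 : (X.image (fun x => x.val % 2 ^ (m.factorization 2))).erase 0 = ∅ := by
        rw [Finset.eq_empty_iff_forall_notMem]
        intro n hn
        rw [mem_erase, mem_image] at hn
        obtain ⟨hn0, x, hx, rfl⟩ := hn
        apply hn0
        obtain ⟨z, hz, j, hj⟩ := hX x hx
        have h4 : (z : ZMod m).val % 2 ^ (m.factorization 2) = 0 :=
          Nat.mod_eq_zero_of_dvd (h2 hrd z hz)
        have hz2 : NeZero (2 ^ (m.factorization 2)) := ⟨(pow_pos (by norm_num) _).ne'⟩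
        set π := ZMod.castHom hd (ZMod (2 ^ (m.factorization 2))) with hπ
        have hval : ∀ x : ZMod m, x.val % 2 ^ (m.factorization 2) = (π x).val := by
          intro x
          rw [← ZMod.val_natCast, ZMod.natCast_val]
          rfl
        rw [hval] at h4 ⊢
        have h5 : π z = 0 := (ZMod.val_eq_zero _).mp h4
        rcases hj with hj | hj
        · rw [hj, map_mul, h5, mul_zero, ZMod.val_zero]
        · rw [hj, map_neg, map_mul, h5, mul_zero, neg_zero, ZMod.val_zero]
      rw [h3, card_empty]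
      norm_num
    · refine lt_of_le_of_lt (card_le_card (erase_subset _ _)) (lt_of_le_of_lt
        (card_orbit (p := p) hd (pow_pos hr.pos _).ne' Z X hX) (lt_of_le_of_lt ?_
          (hL r hr hr2 hrd)))
      exact Nat.mul_le_mul_right _ hZ)
  obtain ⟨c, hc, hcv⟩ := exists_dist_unit X t ht w
  refine ⟨sym p c, sym_iod hp hc, fun z hz => ?_⟩
  have hwp : ∀ (j : ℕ) (a : ZMod m), w ((p : ZMod m) ^ j * a) = w a := by
    intro j
    induction j with
    | zero => intro a; simp
    | succ j ih => intro a; rw [pow_succ', mul_assoc, hw, ih]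
  unfold sym
  have h1 : ∀ j ∈ range (orderOf (p : ZMod m)),
      c ((p : ZMod m) ^ j * z) - c (-((p : ZMod m) ^ j * z)) = w z - w (-z) := by
    intro j _
    rw [hcv _ (hX' z hz j).1, hcv _ (hX' z hz j).2, hwp, ← mul_neg, hwp]
  rw [sum_congr rfl h1, sum_const, card_range, nsmul_eq_mul]

/-- the sum over a Tate character of an odd invariant distribution -/
lemma sum_iod [NeZero m] (hp : p.Coprime m) {s : Multiset (ZMod m)} (hs : Rel0 p s)
    {h : ZMod m → ℤ} (hh : IOD p h) : (s.map h).sum = 0 := by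
  obtain ⟨K, hK, H⟩ := uniform_torsion hp s hs
  have h1 := H ℤ h hh
  rw [nsmul_eq_mul] at h1
  rcases mul_eq_zero.mp h1 with h2 | h2
  · exact absurd (by exact_mod_cast h2) hK.ne'
  · exact h2

end Pool.Agent.J4.H17.KB
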