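import Pool.Agent.J4.H17.KB.Par

/-!
Tate characters with few entries whose degree has only large prime factors.
-/

set_option autoImplicit false
set_option linter.unusedSectionVars false

namespace Pool.Agent.J4.H17.KB

open Finset Pool.Agent.H916R2 Pool.Agent.H916T Pool.Agent.H916Z Pool.Agent.H916Y Pool.Agent.H916Q

variable {p m : ℕ}

open scoped Classical in
/-- **Tate characters with few entries, large prime factors.** -/
theorem generated (hp : p.Prime) (hm : m ≠ 0) (hpm : p.Coprime m) (h4 : ¬ 4 ∣ m) {K : ℕ}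
    (hL : FewPowers p m (if 2 ∣ m then 2 * K else K))
    {s : Multiset (ZMod m)} (hs : IsTate p m s) (hne : s ≠ 0) (hc : Multiset.card s ≤ K) :
    ∃ N : ℕ, 0 < N ∧ p.Coprime N ∧ ∀ M : ℕ, N * m = M →
      H916T.Generated M (ZBase p M) (s.map (iota N : ZMod m → ZMod M)) := by
  have hz : NeZero m := ⟨hm⟩
  have hR : Rel0 p s := fun t => hs.W_sum hpm t
  refine parity_main hp (NeZero.pos m) hpm hs hne fun a => ?_
  refine link_parity2 hs.1 hs.2.1 (fun S => S.Nonempty ∧ Dead p S) ?_ ?_ a
  · rintro S ⟨hSne, hSD⟩ b hb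
    exact dead_elem S hSne hSD b hb
  · intro S hSne h2S hnD
    have hD : ¬ Dead p S := fun h => hnD ⟨hSne, h⟩
    by_cases h2 : 2 ∣ m
    · rw [if_pos h2] at hL
      obtain ⟨d, hd⟩ := h2
      have hd2 : ¬ 2 ∣ d := by
        rintro ⟨e, rfl⟩
        exact h4 ⟨e, by rw [hd]; ring⟩
      have h := parity_two hpm hd.symm hd2 hR hc hL h2S hD
      convert h
    · rw [if_neg h2] at hL
      have h := parity_odd hpm h2 hR hc hL hD
      convert h

/-- large prime factors -/
theorem fewPowers_of_lt [NeZero m] (hpm : p.Coprime m) {K : ℕ}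
    (h : ∀ q : ℕ, q.Prime → q ≠ 2 → q ∣ m → 2 * (K * orderOf (p : ZMod m)) + 1 < q) :
    FewPowers p m K := by
  intro q hq hq2 hqm
  set f := orderOf (p : ZMod m) with hf
  have hfpos : 0 < f := order_pos hpm
  have hd : q ^ (m.factorization q) ∣ m := Nat.ordProj_dvd m q
  have hz : NeZero (q ^ (m.factorization q)) := ⟨(pow_pos hq.pos _).ne'⟩
  set n := q ^ (m.factorization q) with hn
  have hpf : (p : ZMod n) ^ f = 1 := by
    have h1 : (p : ZMod m) ^ f = 1 := pow_orderOf_eq_one _
    have h2 := congrArg (ZMod.castHom hd (ZMod n)) h1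
    rwa [map_pow, map_natCast, map_one] at h2
  have hmod : ∀ j : ℕ, (p : ZMod n) ^ j = (p : ZMod n) ^ (j % f) := by
    intro j
    conv_lhs => rw [← Nat.div_add_mod j f]
    rw [pow_add, pow_mul, hpf, one_pow, one_mul]
  have hsub : signedPowers p n ⊆
      (((range f).image fun j => (p : ZMod n) ^ j) ∪
        ((range f).image fun j => -(p : ZMod n) ^ j) : Finset (ZMod n)) := by
    rintro x ⟨j, rfl | rfl⟩
    · rw [hmod j]
      simp only [coe_union, coe_image, coe_range, Set.mem_union, Set.mem_image, Set.mem_Iio]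
      exact Or.inl ⟨j % f, Nat.mod_lt _ hfpos, rfl⟩
    · rw [hmod j]
      simp only [coe_union, coe_image, coe_range, Set.mem_union, Set.mem_image, Set.mem_Iio]
      exact Or.inr ⟨j % f, Nat.mod_lt _ hfpos, rfl⟩
  have hcard : (signedPowers p n).ncard ≤ 2 * f := by
    refine (Set.ncard_le_ncard hsub (Finset.finite_toSet _)).trans ?_
    rw [Set.ncard_coe_finset]
    refine (card_union_le _ _).trans ?_
    have h1 : ((range f).image fun j => (p : ZMod n) ^ j).card ≤ f :=
      card_image_le.trans (card_range f).le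
    have h2 : ((range f).image fun j => -(p : ZMod n) ^ j).card ≤ f :=
      card_image_le.trans (card_range f).le
    omega
  have h1 := h q hq hq2 hqm
  have h2 : K * (signedPowers p n).ncard ≤ K * (2 * f) := Nat.mul_le_mul_left K hcard
  have h3 : K * (2 * f) = 2 * (K * f) := by ring
  omega

end Pool.Agent.J4.H17.KB
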