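import Pool.Agent.J4.H17.KB.Iod

/-!
Tate characters with few entries: parities of supports; multiplicities.
-/

set_option autoImplicit false
set_option linter.unusedSectionVars false

namespace Pool.Agent.J4.H17.KB

open Finset Pool.Agent.H916R2 Pool.Agent.H916T Pool.Agent.H916Z Pool.Agent.H916Y Pool.Agent.H916Q

variable {p m : ℕ}

/-- the least representative in the orbit under `p` -/
noncomputable def mu (p : ℕ) (z : ZMod m) : ℕ :=
  sInf {n : ℕ | ∃ j : ℕ, n = ((p : ZMod m) ^ j * z).val}

lemma mu_mem (z : ZMod m) : ∃ j : ℕ, mu p z = ((p : ZMod m) ^ j * z).val :=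
  Nat.sInf_mem (s := {n : ℕ | ∃ j : ℕ, n = ((p : ZMod m) ^ j * z).val}) ⟨_, 0, rfl⟩

lemma mu_inv [NeZero m] (hp : p.Coprime m) (z : ZMod m) : mu p ((p : ZMod m) * z) = mu p z := by
  unfold mu
  congr 1
  ext n
  constructor
  · rintro ⟨j, rfl⟩
    exact ⟨j + 1, by rw [pow_succ, mul_assoc]⟩
  · rintro ⟨j, rfl⟩
    obtain ⟨f, hf⟩ : ∃ f, orderOf (p : ZMod m) = f + 1 :=
      ⟨orderOf (p : ZMod m) - 1, by have := order_pos hp; omega⟩
    refine ⟨j + f, ?_⟩
    have h1 : (p : ZMod m) ^ (j + f) * ((p : ZMod m) * z) = (p : ZMod m) ^ j * z := by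
      have h2 : (p : ZMod m) ^ (f + 1) = 1 := by rw [← hf]; exact pow_orderOf_eq_one _
      calc (p : ZMod m) ^ (j + f) * ((p : ZMod m) * z)
          = (p : ZMod m) ^ j * ((p : ZMod m) ^ (f + 1) * z) := by ring
        _ = _ := by rw [h2, one_mul]
    rw [h1]

/-- if a residue and its negative have the same orbit, its support is dead -/
lemma dead_of_neg [NeZero m] (hp : p.Coprime m) {S : Finset ℕ} {z : ZMod m} (hz : Supp S z)
    {i j : ℕ} (h : (p : ZMod m) ^ i * z = (p : ZMod m) ^ j * (-z)) : Dead p S := by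
  set f := orderOf (p : ZMod m) with hf
  have hfpos : 0 < f := order_pos hp
  have hpf : (p : ZMod m) ^ f = 1 := pow_orderOf_eq_one _
  obtain ⟨k, hk⟩ : ∃ k, k + i = f * (i + 1) := ⟨f * (i + 1) - i, by
    have : i ≤ f * (i + 1) := by nlinarith
    omega⟩
  have h1 : z = (p : ZMod m) ^ (k + j) * (-z) := by
    have h2 : (p : ZMod m) ^ (k + i) * z = (p : ZMod m) ^ (k + j) * (-z) := by
      rw [pow_add, mul_assoc, h, ← mul_assoc, ← pow_add]
    rw [hk, pow_mul, hpf, one_pow, one_mul] at h2
    exact h2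
  refine ⟨k + j, ?_⟩
  have h3 : ((p ^ (k + j) + 1 : ℕ) : ZMod m) * z = 0 := by
    push_cast
    rw [mul_neg] at h1
    linear_combination h1
  have h4 : addOrderOf z ∣ p ^ (k + j) + 1 := by
    rw [addOrderOf_dvd_iff_nsmul_eq_zero, nsmul_eq_mul]
    exact h3
  refine dvd_trans ?_ h4
  have hS : S = (addOrderOf z).primeFactors := hz.symm
  rw [hS]
  exact Nat.prod_primeFactors_dvd _

lemma mu_ne [NeZero m] (hp : p.Coprime m) {S : Finset ℕ} {z : ZMod m} (hz : Supp S z)
    (hD : ¬ Dead p S) : mu p z ≠ mu p (-z) := by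
  intro h
  obtain ⟨i, hi⟩ := mu_mem (p := p) z
  obtain ⟨j, hj⟩ := mu_mem (p := p) (-z)
  rw [hi, hj] at h
  exact hD (dead_of_neg hp hz (ZMod.val_injective m h))

lemma supp_mul_p (hp : p.Coprime m) (S : Finset ℕ) (z : ZMod m) :
    Supp S ((p : ZMod m) * z) ↔ Supp S z := by
  have h := supp_unit S (H916T.isUnit_p hp).unit z
  rwa [IsUnit.unit_spec] at h

lemma supp_neg (S : Finset ℕ) (z : ZMod m) : Supp S (-z) ↔ Supp S z := by
  have h := supp_unit S (-1 : (ZMod m)ˣ) z
  rwa [Units.val_neg, Units.val_one, neg_one_mul] at h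

open scoped Classical in
/-- the orientation -/
noncomputable def ori (p : ℕ) (S : Finset ℕ) (z : ZMod m) : ℤ :=
  if Supp S z ∧ mu p z < mu p (-z) then 1 else 0

lemma ori_inv [NeZero m] (hp : p.Coprime m) (S : Finset ℕ) (z : ZMod m) :
    ori p S ((p : ZMod m) * z) = ori p S z := by
  unfold ori
  rw [mu_inv hp, ← mul_neg, mu_inv hp]
  simp only [supp_mul_p hp]

lemma ori_odd [NeZero m] (hp : p.Coprime m) {S : Finset ℕ} (hD : ¬ Dead p S) (z : ZMod m) :
    Odd (ori p S z - ori p S (-z)) ↔ Supp S z := by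
  unfold ori
  simp only [supp_neg, neg_neg]
  by_cases hz : Supp S z
  · have h := mu_ne hp hz hD
    rcases lt_or_gt_of_ne h with h1 | h1
    · rw [if_pos ⟨hz, h1⟩, if_neg (fun h2 => absurd h2.2 (by omega))]
      simp [hz]
    · rw [if_neg (fun h2 => absurd h2.2 (by omega)), if_pos ⟨hz, h1⟩]
      simp only [zero_sub, hz, iff_true]
      exact odd_neg.mpr odd_one
  · rw [if_neg (fun h => hz h.1), if_neg (fun h => hz h.1)]
    simp [hz]

/-- a sum of integers, odd exactly at the members with a property -/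
lemma even_countP {α : Type} (P : α → Prop) [DecidablePred P] (k : α → ℤ) (s : Multiset α)
    (hk : ∀ a ∈ s, (Odd (k a) ↔ P a)) (h0 : Even (s.map k).sum) : Even (s.countP P) := by
  have key : ∀ s : Multiset α, (∀ a ∈ s, (Odd (k a) ↔ P a)) →
      (Even (s.map k).sum ↔ Even (s.countP P)) := by
    intro s
    induction s using Multiset.induction_on with
    | empty => intro _; simp
    | cons a s ih =>
      intro h
      have h1 := ih fun b hb => h b (Multiset.mem_cons_of_mem hb)
      have h2 := h a (Multiset.mem_cons_self a s)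
      rw [Multiset.map_cons, Multiset.sum_cons, Int.even_add, h1, Multiset.countP_cons]
      by_cases ha : P a
      · rw [if_pos ha, Nat.even_add]
        have h3 : ¬ Even (k a) := by rw [Int.not_even_iff_odd]; exact h2.mpr ha
        constructor
        · intro h4
          have : ¬ Even (s.countP P) := fun h5 => h3 (h4.mpr h5)
          exact ⟨fun h5 => absurd h5 this, fun h5 => absurd h5 (by norm_num)⟩
        · intro h4
          have : ¬ Even (s.countP P) := fun h5 => absurd (h4.mp h5) (by norm_num)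
          exact ⟨fun h5 => absurd h5 h3, fun h5 => absurd h5 this⟩
      · rw [if_neg ha, add_zero]
        have h3 : Even (k a) := by
          rw [← Int.not_odd_iff_even]; exact fun h5 => ha (h2.mp h5)
        exact ⟨fun h4 => h4.mp h3, fun h4 => ⟨fun _ => h4, fun _ => h3⟩⟩
  exact (key s hk).mp h0

open scoped Classical in
/-- odd degree: the values on the entries -/
lemma sum_odd [NeZero m] (hp : p.Coprime m) (h2 : ¬ 2 ∣ m) {s : Multiset (ZMod m)}
    (hs : Rel0 p s) {K : ℕ} (hc : Multiset.card s ≤ K) (hL : FewPowers p m K)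
    (w : ZMod m → ℤ) (hw : ∀ a, w ((p : ZMod m) * a) = w a) :
    (s.map fun a => w a - w (-a)).sum = 0 := by
  obtain ⟨h, hh, hv⟩ := exists_iod hp s.toFinset
    ((Multiset.toFinset_card_le s).trans hc) hL (fun h => absurd h h2) w hw
  have h1 := sum_iod hp hs hh
  have h3 : s.map h = s.map fun a => (orderOf (p : ZMod m) : ℤ) * (w a - w (-a)) :=
    Multiset.map_congr rfl fun a ha => hv a (Multiset.mem_toFinset.mpr ha)
  rw [h3, Multiset.sum_map_mul_left] at h1
  have h4 := order_pos hp
  rcases mul_eq_zero.mp h1 with h5 | h5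
  · exact absurd (by exact_mod_cast h5) h4.ne'
  · exact h5

/-- **The multiplicities in odd degree.** -/
theorem count_eq [NeZero m] (hp : p.Coprime m) (h2 : ¬ 2 ∣ m) {s : Multiset (ZMod m)}
    (hs : Rel0 p s) {K : ℕ} (hc : Multiset.card s ≤ K) (hL : FewPowers p m K) (a : ZMod m)
    (P P' : ZMod m → Prop) [DecidablePred P] [DecidablePred P']
    (hP : ∀ b, P b ↔ ∃ j : ℕ, b = (p : ZMod m) ^ j * a)
    (hP' : ∀ b, P' b ↔ ∃ j : ℕ, b = -((p : ZMod m) ^ j * a)) :
    s.countP P = s.countP P' := by
  have hinv : ∀ b, P ((p : ZMod m) * b) ↔ P b := by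
    intro b
    rw [hP, hP]
    constructor
    · rintro ⟨j, hj⟩
      obtain ⟨f, hf⟩ : ∃ f, orderOf (p : ZMod m) = f + 1 :=
        ⟨orderOf (p : ZMod m) - 1, by have := order_pos hp; omega⟩
      refine ⟨f + j, ?_⟩
      have h3 : (p : ZMod m) ^ (f + 1) = 1 := by rw [← hf]; exact pow_orderOf_eq_one _
      calc b = (p : ZMod m) ^ (f + 1) * b := by rw [h3, one_mul]
        _ = (p : ZMod m) ^ f * ((p : ZMod m) * b) := by ring
        _ = _ := by rw [hj]; ring
    · rintro ⟨j, hj⟩
      exact ⟨j + 1, by rw [hj]; ring⟩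
  have hneg : ∀ b, P' b ↔ P (-b) := by
    intro b
    rw [hP, hP']
    exact exists_congr fun j => ⟨fun h => by rw [h, neg_neg], fun h => by rw [← h, neg_neg]⟩
  have h1 := sum_odd hp h2 hs hc hL (fun b => if P b then (1 : ℤ) else 0) (by
    intro b
    show (if P ((p : ZMod m) * b) then (1 : ℤ) else 0) = if P b then 1 else 0
    simp only [hinv])
  rw [Multiset.sum_map_sub] at h1
  have e1 : ∀ (R : ZMod m → Prop) [DecidablePred R] (t : Multiset (ZMod m)),
      (t.map fun b => if R b then (1 : ℤ) else 0).sum = (t.countP R : ℤ) := by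
    intro R _ t
    induction t using Multiset.induction_on with
    | empty => simp
    | cons b t ih =>
      rw [Multiset.map_cons, Multiset.sum_cons, ih, Multiset.countP_cons]
      by_cases hb : R b
      · rw [if_pos hb, if_pos hb]; push_cast; ring
      · rw [if_neg hb, if_neg hb]; simp
  rw [e1] at h1
  have e2 : (s.map fun b => if P (-b) then (1 : ℤ) else 0).sum = (s.countP P' : ℤ) := by
    rw [← e1 P' s]
    congr 1
    refine Multiset.map_congr rfl fun b _ => ?_
    simp only [hneg]
  rw [e2] at h1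
  exact_mod_cast sub_eq_zero.mp h1

/-- **The parities, odd degree.** -/
theorem parity_odd [NeZero m] (hp : p.Coprime m) (h2 : ¬ 2 ∣ m) {s : Multiset (ZMod m)}
    (hs : Rel0 p s) {K : ℕ} (hc : Multiset.card s ≤ K) (hL : FewPowers p m K) {S : Finset ℕ}
    (hD : ¬ Dead p S) : Even (s.countP (Supp S)) := by
  refine even_countP (Supp S) (fun a => ori p S a - ori p S (-a)) s
    (fun a _ => ori_odd hp hD a) ?_
  rw [sum_odd hp h2 hs hc hL (ori p S) (ori_inv hp S)]
  exact Even.zero

open scoped Classical in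
/-- **The parities, twice an odd degree.** -/
theorem parity_two [NeZero m] (hp : p.Coprime m) {d : ℕ} (hd : 2 * d = m) (hd2 : ¬ 2 ∣ d)
    {s : Multiset (ZMod m)}
    (hs : Rel0 p s) {K : ℕ} (hc : Multiset.card s ≤ K) (hL : FewPowers p m (2 * K)) {S : Finset ℕ}
    (hS : 2 ∉ S) (hD : ¬ Dead p S) : Even (s.countP (Supp S)) := by
  have hdpos : 0 < d := by
    rcases Nat.eq_zero_or_pos d with h | h
    · subst h; exact absurd hd.symm (NeZero.ne m)
    · exact h
  have h2m : 2 ∣ m := ⟨d, hd.symm⟩
  have hev : ∀ n : ℕ, 2 ∣ (n : ZMod m).val ↔ 2 ∣ n := by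
    intro n
    rw [ZMod.val_natCast]
    exact Nat.dvd_mod_iff h2m
  have hfac : m.factorization 2 = 1 := by
    rw [← hd, Nat.factorization_mul (by norm_num) hdpos.ne', Finsupp.add_apply,
      Nat.Prime.factorization_self Nat.prime_two, Nat.factorization_eq_zero_of_not_dvd hd2]
  set Z : Finset (ZMod m) := s.toFinset.image (fun a => 2 * a) ∪
    s.toFinset.image (fun a => if 2 ∣ a.val then a else a + (d : ZMod m)) with hZ
  have hZc : Z.card ≤ 2 * K := by
    refine (card_union_le _ _).trans ?_
    have h1 : (s.toFinset.image (fun a => 2 * a)).card ≤ K :=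
      card_image_le.trans ((Multiset.toFinset_card_le s).trans hc)
    have h2 : (s.toFinset.image
        (fun a => if 2 ∣ a.val then a else a + (d : ZMod m))).card ≤ K :=
      card_image_le.trans ((Multiset.toFinset_card_le s).trans hc)
    omega
  have hZ2 : 2 ∣ m → ∀ z ∈ Z, 2 ^ (m.factorization 2) ∣ z.val := by
    intro _ z hz
    rw [hfac, pow_one]
    rw [hZ, mem_union, mem_image, mem_image] at hz
    rcases hz with ⟨a, _, rfl⟩ | ⟨a, _, rfl⟩
    · have h1 : (2 * a : ZMod m) = ((2 * a.val : ℕ) : ZMod m) := by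
        push_cast
        rw [ZMod.natCast_zmod_val]
      rw [h1, hev]
      exact Dvd.intro _ rfl
    · by_cases ha : 2 ∣ a.val
      · rw [if_pos ha]; exact ha
      · rw [if_neg ha]
        have h1 : (a + (d : ZMod m) : ZMod m) = ((a.val + d : ℕ) : ZMod m) := by
          push_cast
          rw [ZMod.natCast_zmod_val]
        rw [h1, hev]
        omega
  obtain ⟨h, hh, hv⟩ := exists_iod hp Z hZc hL hZ2 (ori p S) (ori_inv hp S)
  have h1 := sum_iod hp hs hh
  set f := orderOf (p : ZMod m) with hf
  have hfpos : 0 < f := order_pos hp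
  have h2d : (2 : ZMod m) * (d : ZMod m) = 0 := by
    have : ((2 * d : ℕ) : ZMod m) = 0 := by rw [hd]; exact ZMod.natCast_self m
    simpa using this
  have hhalf : h (d : ZMod m) = 0 := by
    have e1 : -(d : ZMod m) = d := by
      rw [neg_eq_iff_add_eq_zero, ← two_mul]; exact h2d
    have e2 := hh.od.neg (d : ZMod m)
    rw [e1] at e2
    omega
  set k : ZMod m → ℤ := fun a => if 2 ∣ a.val then ori p S a - ori p S (-a) else
    (ori p S (2 * a) - ori p S (-(2 * a))) -
      (ori p S (a + (d : ZMod m)) - ori p S (-(a + (d : ZMod m)))) with hk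
  have h3 : s.map h = s.map fun a => (f : ℤ) * k a := by
    refine Multiset.map_congr rfl fun a ha => ?_
    have ha' := Multiset.mem_toFinset.mpr ha
    by_cases h2a : 2 ∣ a.val
    · simp only [hk, if_pos h2a]
      refine hv a ?_
      rw [hZ, mem_union]
      right
      rw [mem_image]
      exact ⟨a, ha', by rw [if_pos h2a]⟩
    · simp only [hk, if_neg h2a]
      have e1 := hh.od.two d hd a
      rw [hhalf, add_zero] at e1
      have e2 := hv (2 * a) (by
        rw [hZ, mem_union]
        left
        rw [mem_image]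
        exact ⟨a, ha', rfl⟩)
      have e3 := hv (a + (d : ZMod m)) (by
        rw [hZ, mem_union]
        right
        rw [mem_image]
        exact ⟨a, ha', by rw [if_neg h2a]⟩)
      rw [e2, e3] at e1
      linear_combination e1
  rw [h3, Multiset.sum_map_mul_left] at h1
  have h4 : (s.map k).sum = 0 := by
    rcases mul_eq_zero.mp h1 with h5 | h5
    · exact absurd (by exact_mod_cast h5) hfpos.ne'
    · exact h5
  refine even_countP (Supp S) k s ?_ (by rw [h4]; exact Even.zero)
  intro a _
  by_cases h2a : 2 ∣ a.val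
  · simp only [hk, if_pos h2a]
    exact ori_odd hp hD a
  · simp only [hk, if_neg h2a]
    have hord : 2 ∣ addOrderOf a := by
      subst hd
      exact even_order_of_odd_val hdpos hd2 a h2a
    have hnS : ¬ Supp S a := by
      intro hSa
      apply hS
      have : S = (addOrderOf a).primeFactors := hSa.symm
      rw [this]
      exact Nat.mem_primeFactors.mpr ⟨Nat.prime_two, hord, (addOrderOf_pos a).ne'⟩
    -- `2 a` and `a + d` have the same order
    have hb2 : ¬ 2 ∣ addOrderOf (a + (d : ZMod m)) := by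
      intro h5
      have h6 : (d : ZMod m) = ((d : ℕ) : ZMod m) := rfl
      have h7 : 2 ∣ (a + (d : ZMod m)).val := by
        have h8 : (a + (d : ZMod m) : ZMod m) = ((a.val + d : ℕ) : ZMod m) := by
          push_cast
          rw [ZMod.natCast_zmod_val]
        rw [h8, hev]
        omega
      obtain ⟨e, he⟩ := h7
      have h8 : addOrderOf (a + (d : ZMod m)) ∣ d := by
        rw [addOrderOf_dvd_iff_nsmul_eq_zero, nsmul_eq_mul,
          ← ZMod.natCast_zmod_val (a + (d : ZMod m)), he]
        push_cast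
        linear_combination (e : ZMod m) * h2d
      exact hd2 (h5.trans h8)
    have heq : addOrderOf (2 * a) = addOrderOf (a + (d : ZMod m)) := by
      have h5 : (2 * a : ZMod m) = 2 • (a + (d : ZMod m)) := by
        rw [nsmul_eq_mul]
        push_cast
        linear_combination -h2d
      rw [h5]
      refine Nat.Coprime.addOrderOf_nsmul ?_
      rw [Nat.coprime_comm]
      exact (Nat.Prime.coprime_iff_not_dvd Nat.prime_two).mpr hb2
    have hiff : Supp S (2 * a) ↔ Supp S (a + (d : ZMod m)) := by
      unfold Supp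
      rw [heq]
    have o1 := ori_odd hp hD (2 * a)
    have o2 := ori_odd hp hD (a + (d : ZMod m))
    rw [hiff, ← o2] at o1
    constructor
    · intro h5
      exfalso
      rw [Int.odd_sub] at h5
      rw [← Int.not_odd_iff_even] at h5
      tauto
    · intro h5
      exact absurd h5 hnS

end Pool.Agent.J4.H17.KB
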