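import Pool.Agent.J4.H17.KB.Dist

/-!
A unit which moves a small set of residues into the generating set.
-/

set_option autoImplicit false

namespace Pool.Agent.J4.H17.KB

open Finset Pool.Agent.H916R2 Pool.Agent.Y2

/-- the number of bad units for one residue -/
lemma card_bad {r f y : ℕ} (hr : r.Prime) (hy : ¬ r ^ (f + 1) ∣ y) :
    ((range (r ^ (f + 1))).filter
      (fun t => ¬ r ∣ t ∧ (t * y) % r ^ (f + 1) ≤ r ^ f)).card ≤ r ^ f := by
  have hy0 : y ≠ 0 := by rintro rfl; exact hy (dvd_zero _)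
  obtain ⟨i, y', hy', hyy⟩ := Nat.exists_eq_pow_mul_and_not_dvd hy0 r hr.ne_one
  have hif : i ≤ f := by
    by_contra h
    apply hy
    rw [hyy]
    exact (pow_dvd_pow r (by omega)).mul_right y'
  obtain ⟨g, rfl⟩ := Nat.exists_eq_add_of_le hif
  have hrg : 0 < r ^ (g + 1) := pow_pos hr.pos _
  have hN : r ^ (i + g + 1) = r ^ i * r ^ (g + 1) := by rw [← pow_add]; congr 1
  have hmod : ∀ t, (t * y) % r ^ (i + g + 1) = r ^ i * ((t * y') % r ^ (g + 1)) := by
    intro t
    rw [hN, hyy, show t * (r ^ i * y') = r ^ i * (t * y') by ring, Nat.mul_mod_mul_left]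
  have hri : 0 < r ^ i := pow_pos hr.pos _
  set B := (range (r ^ (i + g + 1))).filter
      (fun t => ¬ r ∣ t ∧ (t * y) % r ^ (i + g + 1) ≤ r ^ (i + g)) with hB
  have hcard : B.card ≤ ((range (r ^ i)) ×ˢ (range (r ^ g))).card := by
    refine Finset.card_le_card_of_injOn
      (fun t => (t / r ^ (g + 1), (t * y') % r ^ (g + 1) - 1)) ?_ ?_
    · intro t ht
      simp only [hB, coe_filter, mem_range, Set.mem_ofPred_eq] at ht
      obtain ⟨ht1, ht2, ht3⟩ := ht
      simp only [coe_product, coe_range, Set.mem_prod, Set.mem_Iio]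
      refine ⟨?_, ?_⟩
      · rw [Nat.div_lt_iff_lt_mul hrg, ← hN]
        exact ht1
      · rw [hmod t, pow_add r i g] at ht3
        have h1 := Nat.le_of_mul_le_mul_left ht3 hri
        have h2 : (t * y') % r ^ (g + 1) ≠ 0 := by
          intro h
          have h3 : r ∣ t * y' := (dvd_pow_self r (by omega)).trans (Nat.dvd_of_mod_eq_zero h)
          rcases hr.dvd_mul.mp h3 with h4 | h4
          · exact ht2 h4
          · exact hy' h4
        show (t * y') % r ^ (g + 1) - 1 < r ^ g
        generalize (t * y') % r ^ (g + 1) = A at h1 h2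
        omega
    · intro t ht u hu htu
      simp only [hB, coe_filter, mem_range, Set.mem_ofPred_eq] at ht hu
      have h1 : t / r ^ (g + 1) = u / r ^ (g + 1) := congrArg Prod.fst htu
      have h2 : (t * y') % r ^ (g + 1) - 1 = (u * y') % r ^ (g + 1) - 1 := congrArg Prod.snd htu
      have hnz : ∀ t, ¬ r ∣ t → (t * y') % r ^ (g + 1) ≠ 0 := by
        intro t ht2 h
        have h3 : r ∣ t * y' := (dvd_pow_self r (by omega)).trans (Nat.dvd_of_mod_eq_zero h)
        rcases hr.dvd_mul.mp h3 with h4 | h4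
        · exact ht2 h4
        · exact hy' h4
      have h3 := hnz t ht.2.1
      have h4 := hnz u hu.2.1
      have h5 : t * y' ≡ u * y' [MOD r ^ (g + 1)] := by
        show (t * y') % r ^ (g + 1) = (u * y') % r ^ (g + 1)
        generalize (t * y') % r ^ (g + 1) = A at h2 h3
        generalize (u * y') % r ^ (g + 1) = B' at h2 h4
        omega
      have h6 : t ≡ u [MOD r ^ (g + 1)] := by
        refine Nat.ModEq.cancel_right_of_coprime ?_ h5
        exact Nat.Coprime.pow_left _ ((Nat.Prime.coprime_iff_not_dvd hr).mpr hy')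
      have h7 : t % r ^ (g + 1) = u % r ^ (g + 1) := h6
      rw [← Nat.div_add_mod t (r ^ (g + 1)), ← Nat.div_add_mod u (r ^ (g + 1)), h1, h7]
  rw [card_product, card_range, card_range, ← pow_add] at hcard
  exact hcard

/-- one prime -/
lemma exists_unit_prime {r e : ℕ} (hr : r.Prime) (he : 0 < e) (Y : Finset ℕ)
    (hY : ∀ y ∈ Y, ¬ r ^ e ∣ y) (hc : Y.card < r - 1) :
    ∃ t : ℕ, ¬ r ∣ t ∧ ∀ y ∈ Y, r ^ (e - 1) < (t * y) % r ^ e := by
  obtain ⟨f, rfl⟩ : ∃ f, e = f + 1 := ⟨e - 1, by omega⟩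
  rw [Nat.add_sub_cancel]
  set U := (range (r ^ (f + 1))).filter (fun t => ¬ r ∣ t) with hU
  have hUc : r ^ f * (r - 1) ≤ U.card := by
    rw [← Nat.totient_prime_pow_succ hr]
    unfold Nat.totient
    apply Finset.card_le_card
    intro x hx
    simp only [hU, mem_filter, mem_range] at hx ⊢
    refine ⟨hx.1, fun h => ?_⟩
    have h1 : r ∣ Nat.gcd (r ^ (f + 1)) x := Nat.dvd_gcd (dvd_pow_self r (by omega)) h
    rw [hx.2] at h1
    exact hr.one_lt.ne' (Nat.dvd_one.mp h1)
  have hV : (Y.biUnion fun y => (range (r ^ (f + 1))).filter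
      (fun t => ¬ r ∣ t ∧ (t * y) % r ^ (f + 1) ≤ r ^ f)).card ≤ Y.card * r ^ f :=
    Finset.card_biUnion_le_card_mul _ _ _ fun y hy => card_bad hr (hY y hy)
  have hlt : (Y.biUnion fun y => (range (r ^ (f + 1))).filter
      (fun t => ¬ r ∣ t ∧ (t * y) % r ^ (f + 1) ≤ r ^ f)).card < U.card := by
    refine lt_of_le_of_lt hV (lt_of_lt_of_le ?_ hUc)
    rw [mul_comm]
    exact Nat.mul_lt_mul_of_pos_left hc (pow_pos hr.pos _)
  obtain ⟨t, ht, ht2⟩ := Finset.exists_mem_notMem_of_card_lt_card hlt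
  simp only [hU, mem_filter, mem_range] at ht
  refine ⟨t, ht.2, fun y hy => ?_⟩
  by_contra h
  apply ht2
  rw [mem_biUnion]
  refine ⟨y, hy, ?_⟩
  simp only [mem_filter, mem_range]
  exact ⟨ht.1, ht.2, by omega⟩

/-- a unit which moves a set of residues into the generating set -/
theorem exists_unit {m : ℕ} [NeZero m] (X : Finset (ZMod m))
    (hX : ∀ r ∈ m.primeFactors,
      ((X.image (fun x => x.val % r ^ (m.factorization r))).erase 0).card < r - 1) :
    ∃ t : (ZMod m)ˣ, ∀ x ∈ X, ∀ r ∈ m.primeFactors, TT r m ((t : ZMod m) * x).val := by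
  have hm : m ≠ 0 := NeZero.ne m
  have hex : ∀ r : ℕ, ∃ t : ℕ, r ∈ m.primeFactors → ¬ r ∣ t ∧
      ∀ y ∈ (X.image (fun x => x.val % r ^ (m.factorization r))).erase 0,
        r ^ (m.factorization r - 1) < (t * y) % r ^ (m.factorization r) := by
    intro r
    by_cases hrm : r ∈ m.primeFactors
    · have hr := Nat.prime_of_mem_primeFactors hrm
      have he : 0 < m.factorization r :=
        hr.factorization_pos_of_dvd hm (Nat.dvd_of_mem_primeFactors hrm)
      obtain ⟨t, ht⟩ := exists_unit_prime hr he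
        ((X.image (fun x => x.val % r ^ (m.factorization r))).erase 0) (by
          intro y hy
          rw [mem_erase, mem_image] at hy
          obtain ⟨hy0, x, -, rfl⟩ := hy
          intro h
          exact hy0 (Nat.eq_zero_of_dvd_of_lt h (Nat.mod_lt _ (pow_pos hr.pos _))))
        (hX r hrm)
      exact ⟨t, fun _ => ht⟩
    · exact ⟨0, fun h => absurd h hrm⟩
  choose T hT using hex
  have hpw : Set.Pairwise (m.primeFactors : Set ℕ)
      (Function.onFun Nat.Coprime fun r => r ^ (m.factorization r)) := by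
    intro a ha b hb hab
    have ha' := Nat.prime_of_mem_primeFactors (by simpa using ha)
    have hb' := Nat.prime_of_mem_primeFactors (by simpa using hb)
    exact Nat.Coprime.pow _ _ ((Nat.coprime_primes ha' hb').mpr hab)
  obtain ⟨k, hk⟩ := Nat.chineseRemainderOfFinset T (fun r => r ^ (m.factorization r))
    m.primeFactors (fun r hr => (pow_pos (Nat.prime_of_mem_primeFactors hr).pos _).ne') hpw
  have hcop : k.Coprime m := by
    rw [Nat.coprime_comm, Nat.coprime_iff_gcd_eq_one]
    by_contra h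
    obtain ⟨r, hr, hrd⟩ := Nat.exists_prime_and_dvd h
    have h1 : r ∣ m := hrd.trans (Nat.gcd_dvd_left _ _)
    have h2 : r ∣ k := hrd.trans (Nat.gcd_dvd_right _ _)
    have hrm : r ∈ m.primeFactors := Nat.mem_primeFactors.mpr ⟨hr, h1, hm⟩
    have he : 0 < m.factorization r := hr.factorization_pos_of_dvd hm h1
    apply (hT r hrm).1
    have h3 : k ≡ T r [MOD r] := (hk r hrm).of_dvd (dvd_pow_self r he.ne')
    exact (Nat.ModEq.dvd_iff h3 dvd_rfl).mp h2
  refine ⟨ZMod.unitOfCoprime k hcop, fun x hx r hrm => ?_⟩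
  have hr := Nat.prime_of_mem_primeFactors hrm
  have hd : r ^ (m.factorization r) ∣ m := Nat.ordProj_dvd m r
  have hval : ((ZMod.unitOfCoprime k hcop : (ZMod m)ˣ) * x : ZMod m).val %
      r ^ (m.factorization r) = (T r * (x.val % r ^ (m.factorization r))) %
        r ^ (m.factorization r) := by
    rw [ZMod.coe_unitOfCoprime, ZMod.val_mul, Nat.mod_mod_of_dvd _ hd, ZMod.val_natCast,
      Nat.mul_mod, Nat.mod_mod_of_dvd _ hd]
    have h1 : k % r ^ (m.factorization r) = T r % r ^ (m.factorization r) := hk r hrm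
    rw [h1, ← Nat.mul_mod, Nat.mul_mod_mod]
  unfold TT
  rw [hval]
  by_cases h0 : x.val % r ^ (m.factorization r) = 0
  · left
    rw [h0, mul_zero, Nat.zero_mod]
  · right
    exact (hT r hrm).2 _ (mem_erase.mpr ⟨h0, mem_image_of_mem _ hx⟩)

end Pool.Agent.J4.H17.KB
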